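import Pool.Agent.W128.VA.Stm

/-! Project VA (helper128), part VA-TRV (helper28): truncation and the vacuum. -/

set_option autoImplicit false

namespace Pool.Agent.W28.VA.TRV

open Finset Pool.Agent.W128.VA

theorem PZ_neg (σ s : ℤ) (h : s < 0) : PZ σ s = 0 := by
  unfold PZ; rw [if_neg (by omega)]

theorem eop_zero (σ s : ℤ) (p : R0) (h : s + (tau σ p).natDegree < 0) : eop σ s p = 0 := by
  rw [eop_apply, Polynomial.sum_def]
  refine Finset.sum_eq_zero fun i hi => ?_
  have := Polynomial.le_natDegree_of_mem_supp i hi
  rw [PZ_neg σ _ (by omega), zero_mul]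

theorem eop_one (σ s : ℤ) : eop σ s 1 = PZ σ s := by
  rw [eop_apply, map_one, show (1 : Polynomial R0) = Polynomial.C 1 from (map_one _).symm,
    Polynomial.sum_C_index]
  · simp
  · simp

theorem hR_zero (n k : ℤ) (p : R0) (h1 : 1 ≤ n) (h : (n - 1).toNat ∉ p.vars) : hR n k p = 0 := by
  unfold hR
  rw [if_neg (by omega), if_neg (by omega)]
  rw [LinearMap.smul_apply]
  change (2 * (n : ℂ)) • (MvPolynomial.pderiv (n - 1).toNat p) = 0
  rw [MvPolynomial.pderiv_eq_zero_of_notMem_vars h, smul_zero]

theorem main : S_TRV := by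
  refine ⟨fun v => ?_, fun σ v => ?_, fun n hn => ?_, fun σ n hn => ?_, ?_, ?_, fun σ => ?_⟩
  · induction v using Finsupp.induction_linear with
    | zero => exact ⟨0, fun n _ => map_zero _⟩
    | add f g hf hg =>
      obtain ⟨N, hN⟩ := hf
      obtain ⟨N', hN'⟩ := hg
      refine ⟨max N N', fun n hn => ?_⟩
      rw [map_add, hN n (le_trans (le_max_left _ _) hn), hN' n (le_trans (le_max_right _ _) hn),
        add_zero]
    | single k p =>
      refine ⟨(p.vars.sup id : ℕ) + 2, fun n hn => ?_⟩
      rw [hop_single, hR_zero n k p (by omega) (fun h => ?_), Finsupp.single_zero]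
      have := Finset.le_sup (f := id) h
      simp only [id] at this
      omega
  · induction v using Finsupp.induction_linear with
    | zero => exact ⟨0, fun n _ => map_zero _⟩
    | add f g hf hg =>
      obtain ⟨N, hN⟩ := hf
      obtain ⟨N', hN'⟩ := hg
      refine ⟨max N N', fun n hn => ?_⟩
      rw [map_add, hN n (le_trans (le_max_left _ _) hn), hN' n (le_trans (le_max_right _ _) hn),
        add_zero]
    | single k p =>
      refine ⟨((tau σ p).natDegree : ℤ) - 2 * σ * k, fun n hn => ?_⟩
      rw [eV_single, eop_zero σ _ p (by omega), Finsupp.single_zero]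
  · unfold vac1
    rw [hop_single]
    rcases eq_or_lt_of_le hn with h | h
    · have : hR n 0 1 = 0 := by
        unfold hR
        rw [if_neg (by omega), if_pos h.symm]
        simp
      rw [this, Finsupp.single_zero]
    · rw [hR_zero n 0 1 (by omega) (by simp), Finsupp.single_zero]
  · unfold vac1
    rw [eV_single, eop_one, PZ_neg σ _ (by simp; omega), Finsupp.single_zero]
  · unfold vac1
    rw [T0_single]
    have : D 1 = 0 := by unfold D; exact Derivation.map_one_eq_zero _
    rw [this]
    simp
  · unfold vac1
    rw [hop_single]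
    congr 1
    unfold hR
    rw [if_pos (by norm_num)]
    simp
  · unfold vac1
    rw [eV_single, eop_one, zero_add]
    congr 1
    unfold PZ
    rw [if_pos (by simp)]
    simp [P_zero]

end Pool.Agent.W28.VA.TRV
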